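import Mathlib
set_option autoImplicit false
namespace Pool.Agent.Helper949.StackSort

/-- the largest entry of a word -/
def top (w : List ℕ) : ℕ := w.foldr max 0

theorem le_top {w : List ℕ} {a : ℕ} (h : a ∈ w) : a ≤ top w := by
  induction w with
  | nil => simp at h
  | cons b t ih =>
    have : top (b :: t) = max b (top t) := rfl
    rw [this]
    rcases List.mem_cons.1 h with h | h
    · subst h; exact le_max_left _ _
    · exact (ih h).trans (le_max_right _ _)

theorem top_mem {w : List ℕ} (h : w ≠ []) : top w ∈ w := by
  induction w with
  | nil => exact absurd rfl h
  | cons b t ih =>
    have e : top (b :: t) = max b (top t) := rfl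
    rw [e]
    by_cases ht : t = []
    · subst ht; simp [top]
    · rcases le_total b (top t) with h1 | h1
      · rw [max_eq_right h1]; exact List.mem_cons_of_mem _ (ih ht)
      · rw [max_eq_left h1]; exact List.mem_cons_self

/-- the entries to the left of the largest entry -/
def left (w : List ℕ) : List ℕ := w.takeWhile (fun a => decide (a ≠ top w))

/-- the entries to the right of the largest entry -/
def right (w : List ℕ) : List ℕ := (w.dropWhile (fun a => decide (a ≠ top w))).tail

theorem split_aux (m : ℕ) : ∀ w : List ℕ, m ∈ w →
    w = w.takeWhile (fun a => decide (a ≠ m)) ++
      m :: (w.dropWhile (fun a => decide (a ≠ m))).tail := by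
  intro w
  induction w with
  | nil => intro h; simp at h
  | cons b t ih =>
    intro h
    by_cases hb : b = m
    · subst hb; simp
    · have hm : m ∈ t := by
        rcases List.mem_cons.1 h with h | h
        · exact absurd h.symm hb
        · exact h
      have := ih hm
      simp [hb]
      simpa using this

theorem eq_split {w : List ℕ} (h : w ≠ []) : w = left w ++ top w :: right w :=
  split_aux _ _ (top_mem h)

theorem left_length_lt {w : List ℕ} (h : w ≠ []) : (left w).length < w.length := by
  have := congrArg List.length (eq_split h)
  simp at this
  omega

theorem right_length_lt {w : List ℕ} (h : w ≠ []) : (right w).length < w.length := by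
  have := congrArg List.length (eq_split h)
  simp at this
  omega

/-- West's stack-sorting map -/
def stackSort (w : List ℕ) : List ℕ :=
  if _h : w = [] then [] else stackSort (left w) ++ stackSort (right w) ++ [top w]
termination_by w.length
decreasing_by
  · exact left_length_lt _h
  · exact right_length_lt _h

/-- the set `S n` of permutations of `1, ..., n`, written as words -/
def Sn (n : ℕ) : Set (List ℕ) := {w | w.Perm (List.range' 1 n)}

/-- the number of sorted permutations of `1, ..., n` -/
noncomputable def sortedCount (n : ℕ) : ℕ := (stackSort '' Sn n).ncard

end Pool.Agent.Helper949.StackSort
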