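import Mathlib
set_option autoImplicit false
namespace Pool.Agent.Helper949.StackSort

open Finset Filter Topology

/-- power series with nonnegative coefficients: derivative -/
theorem ps_deriv (c : ℕ → ℝ) (hc : ∀ n, 0 ≤ c n) (r : ℝ) (hr : 0 < r)
    (hs : Summable fun n => c n * r ^ n) (z : ℝ) (hz : |z| < r) :
    HasDerivAt (fun z => ∑' n, c n * z ^ n) (∑' n : ℕ, ((n : ℝ) + 1) * c (n + 1) * z ^ n) z ∧
      Summable fun n : ℕ => ((n : ℝ) + 1) * c (n + 1) * z ^ n := by
  obtain ⟨r', h1, h2⟩ := exists_between hz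
  have hr' : 0 < r' := (abs_nonneg z).trans_lt h1
  obtain ⟨M, hM⟩ : ∃ M : ℝ, ∀ n, c n * r ^ n ≤ M := by
    obtain ⟨M, hM⟩ := hs.tendsto_atTop_zero.bddAbove_range
    exact ⟨M, fun n => hM ⟨n, rfl⟩⟩
  have hM0 : 0 ≤ M := le_trans (mul_nonneg (hc 0) (by positivity)) (hM 0)
  set q := r' / r with hq
  have hq0 : 0 ≤ q := by positivity
  have hq1 : q < 1 := by rw [hq, div_lt_one hr]; exact h2
  -- summable majorant
  have hsum : Summable fun n : ℕ => (n : ℝ) * q ^ n := by
    have := summable_pow_mul_geometric_of_norm_lt_one (R := ℝ) 1 (r := q)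
      (by rw [Real.norm_eq_abs, abs_of_nonneg hq0]; exact hq1)
    simpa using this
  have hu : Summable fun n : ℕ => c n * ((n : ℝ) * r' ^ (n - 1)) := by
    apply Summable.of_nonneg_of_le (g := fun n : ℕ => c n * ((n : ℝ) * r' ^ (n - 1)))
      (f := fun n : ℕ => (M / r') * ((n : ℝ) * q ^ n))
    · intro n; exact mul_nonneg (hc n) (by positivity)
    · intro n
      rcases Nat.eq_zero_or_pos n with hn | hn
      · subst hn; simp
      · have e : r' ^ n = r' ^ (n - 1) * r' := by
          rw [← pow_succ]; congr 1; omega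
        have h3 : c n * ((n : ℝ) * r' ^ (n - 1)) = (c n * r ^ n) * ((n : ℝ) * q ^ n) / r' := by
          rw [hq, div_pow, e]
          field_simp
        rw [h3]
        have h4 : (c n * r ^ n) * ((n : ℝ) * q ^ n) ≤ M * ((n : ℝ) * q ^ n) :=
          mul_le_mul_of_nonneg_right (hM n) (by positivity)
        calc (c n * r ^ n) * ((n : ℝ) * q ^ n) / r' ≤ M * ((n : ℝ) * q ^ n) / r' :=
              div_le_div_of_nonneg_right h4 hr'.le
          _ = (M / r') * ((n : ℝ) * q ^ n) := by ring
    · exact hsum.mul_left _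
  have hder : HasDerivAt (fun z => ∑' n, c n * z ^ n)
      (∑' n : ℕ, c n * ((n : ℝ) * z ^ (n - 1))) z := by
    refine hasDerivAt_tsum_of_isPreconnected (t := Metric.ball (0 : ℝ) r') (y₀ := 0)
      (g := fun n z => c n * z ^ n) (g' := fun n z => c n * ((n : ℝ) * z ^ (n - 1)))
      hu Metric.isOpen_ball (convex_ball _ _).isPreconnected ?_ ?_ ?_ ?_ ?_
    · intro n y _
      exact (hasDerivAt_pow n y).const_mul _
    · intro n y hy
      have hy' : |y| < r' := by simpa using hy
      rw [norm_mul, norm_mul, norm_pow, Real.norm_eq_abs, Real.norm_eq_abs, Real.norm_eq_abs,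
        abs_of_nonneg (hc n), abs_of_nonneg (Nat.cast_nonneg n)]
      apply mul_le_mul_of_nonneg_left _ (hc n)
      apply mul_le_mul_of_nonneg_left _ (Nat.cast_nonneg n)
      exact pow_le_pow_left₀ (abs_nonneg _) hy'.le _
    · simpa using hr'
    · apply summable_of_ne_finset_zero (s := {0})
      intro n hn
      have : n ≠ 0 := by simpa using hn
      simp [this]
    · simpa using h1
  have hs2 : Summable fun n : ℕ => c n * ((n : ℝ) * z ^ (n - 1)) := by
    apply Summable.of_norm_bounded hu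
    intro n
    rw [norm_mul, norm_mul, norm_pow, Real.norm_eq_abs, Real.norm_eq_abs, Real.norm_eq_abs,
      abs_of_nonneg (hc n), abs_of_nonneg (Nat.cast_nonneg n)]
    apply mul_le_mul_of_nonneg_left _ (hc n)
    apply mul_le_mul_of_nonneg_left _ (Nat.cast_nonneg n)
    exact pow_le_pow_left₀ (abs_nonneg _) h1.le _
  have hfun : (fun n : ℕ => ((n : ℝ) + 1) * c (n + 1) * z ^ n) =
      fun n : ℕ => c (n + 1) * (((n + 1 : ℕ) : ℝ) * z ^ ((n + 1) - 1)) := by
    funext n
    rw [Nat.add_sub_cancel]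
    push_cast
    ring
  have hs3 : Summable fun n : ℕ => ((n : ℝ) + 1) * c (n + 1) * z ^ n := by
    rw [hfun]
    exact (summable_nat_add_iff (f := fun n : ℕ => c n * ((n : ℝ) * z ^ (n - 1))) 1).2 hs2
  refine ⟨?_, hs3⟩
  have e : (∑' n : ℕ, c n * ((n : ℝ) * z ^ (n - 1))) =
      ∑' n : ℕ, ((n : ℝ) + 1) * c (n + 1) * z ^ n := by
    rw [hs2.tsum_eq_zero_add, hfun]
    simp
  rw [← e]
  exact hder

/-- Cauchy product of power series -/
theorem ps_mul (f g : ℕ → ℝ) (z : ℝ) (hf : Summable fun n => ‖f n * z ^ n‖)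
    (hg : Summable fun n => ‖g n * z ^ n‖) :
    (∑' n, f n * z ^ n) * (∑' n, g n * z ^ n) =
      ∑' n : ℕ, (∑ k ∈ range (n + 1), f k * g (n - k)) * z ^ n ∧
    Summable fun n : ℕ => (∑ k ∈ range (n + 1), f k * g (n - k)) * z ^ n := by
  have hfun : (fun n : ℕ => (∑ k ∈ range (n + 1), f k * g (n - k)) * z ^ n) =
      fun n : ℕ => ∑ k ∈ range (n + 1), (f k * z ^ k) * (g (n - k) * z ^ (n - k)) := by
    funext n
    rw [sum_mul]
    apply sum_congr rfl
    intro k hk
    have hk' : k ≤ n := by simpa [Nat.lt_succ_iff] using hk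
    have : z ^ n = z ^ k * z ^ (n - k) := by rw [← pow_add]; congr 1; omega
    rw [this]; ring
  constructor
  · rw [hfun]
    exact tsum_mul_tsum_eq_tsum_sum_range_of_summable_norm
      (f := fun n => f n * z ^ n) (g := fun n => g n * z ^ n) hf hg
  · rw [hfun]
    exact (summable_norm_sum_mul_range_of_summable_norm
      (f := fun n => f n * z ^ n) (g := fun n => g n * z ^ n) hf hg).of_norm

end Pool.Agent.Helper949.StackSort
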