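import Mathlib
import Pool.Agent.Helper949.Srt.PS
set_option autoImplicit false
namespace Pool.Agent.Helper949.StackSort

open Finset Filter Topology

/-- the facts on the sequences that the analysis uses -/
structure Hyp (b β : ℕ → ℝ) : Prop where
  b0 : b 0 = 0
  b1 : b 1 = 1
  bn : ∀ n, 0 ≤ b n
  βn : ∀ n, 0 ≤ β n
  r1 : ∀ n : ℕ, ((n : ℝ) + 1) * b (n + 1) = (if n = 0 then 1 else 0) + b n +
    ∑ k ∈ range (n + 1), b k * b (n - k) - β n
  r2 : ∀ n : ℕ, ((n : ℝ) + 1) * β (n + 1) ≤ b n +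
    ∑ k ∈ range (n + 1), b k * b (n - k) + ∑ k ∈ range (n + 1), β k * b (n - k)
  r3 : ∀ n, 1 ≤ n → b (n + 1) ≤ b n
  r6 : ∀ n, 2 * β n ≤ ∑ k ∈ range (n + 1), b k * b (n - k)
  r6s : 2 * β 4 < ∑ k ∈ range (4 + 1), b k * b (4 - k)

namespace Hyp

variable {b β : ℕ → ℝ}

/-- generating function of `b` -/
noncomputable def A (b : ℕ → ℝ) (z : ℝ) : ℝ := ∑' n, b n * z ^ n

/-- derivative of the generating function -/
noncomputable def A1 (b : ℕ → ℝ) (z : ℝ) : ℝ := ∑' n : ℕ, ((n : ℝ) + 1) * b (n + 1) * z ^ n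

theorem b_le_one (H : Hyp b β) (n : ℕ) : b n ≤ 1 := by
  cases n with
  | zero => rw [H.b0]; norm_num
  | succ n =>
    induction n with
    | zero => rw [H.b1]
    | succ n ih => exact (H.r3 (n + 1) (by omega)).trans ih

theorem summ_mono (c : ℕ → ℝ) (hc : ∀ n, 0 ≤ c n) {r z : ℝ} (hs : Summable fun n => c n * r ^ n)
    (hz0 : 0 ≤ z) (hz : z ≤ r) : Summable fun n => c n * z ^ n :=
  Summable.of_nonneg_of_le (fun n => mul_nonneg (hc n) (by positivity))
    (fun n => mul_le_mul_of_nonneg_left (pow_le_pow_left₀ hz0 hz n) (hc n)) hs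

theorem norm_summ (c : ℕ → ℝ) (hc : ∀ n, 0 ≤ c n) {z : ℝ} (hz0 : 0 ≤ z)
    (hs : Summable fun n => c n * z ^ n) : Summable fun n => ‖c n * z ^ n‖ := by
  have : (fun n => ‖c n * z ^ n‖) = fun n => c n * z ^ n := by
    funext n
    rw [Real.norm_eq_abs, abs_of_nonneg (mul_nonneg (hc n) (by positivity))]
  rw [this]; exact hs

theorem conv_nonneg (H : Hyp b β) (n : ℕ) : 0 ≤ ∑ k ∈ range (n + 1), b k * b (n - k) :=
  sum_nonneg fun _ _ => mul_nonneg (H.bn _) (H.bn _)

theorem summ_conv (H : Hyp b β) {z : ℝ} (hz0 : 0 ≤ z) (hs : Summable fun n => b n * z ^ n) :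
    A b z ^ 2 = (∑' n : ℕ, (∑ k ∈ range (n + 1), b k * b (n - k)) * z ^ n) ∧
    Summable fun n : ℕ => (∑ k ∈ range (n + 1), b k * b (n - k)) * z ^ n := by
  have h := ps_mul b b z (norm_summ b H.bn hz0 hs) (norm_summ b H.bn hz0 hs)
  refine ⟨?_, h.2⟩
  rw [← h.1, sq]; rfl

theorem summ_β (H : Hyp b β) {z : ℝ} (hz0 : 0 ≤ z) (hs : Summable fun n => b n * z ^ n) :
    Summable fun n => β n * z ^ n := by
  refine Summable.of_nonneg_of_le (fun n => mul_nonneg (H.βn n) (by positivity))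
    (fun n => ?_) (H.summ_conv hz0 hs).2
  apply mul_le_mul_of_nonneg_right _ (by positivity)
  have := H.r6 n
  have := H.conv_nonneg n
  linarith

theorem B_nonneg (H : Hyp b β) {z : ℝ} (hz0 : 0 ≤ z) : 0 ≤ A β z :=
  tsum_nonneg fun n => mul_nonneg (H.βn n) (by positivity)

theorem A_nonneg (H : Hyp b β) {z : ℝ} (hz0 : 0 ≤ z) : 0 ≤ A b z :=
  tsum_nonneg fun n => mul_nonneg (H.bn n) (by positivity)

theorem le_A (H : Hyp b β) {z : ℝ} (hz0 : 0 ≤ z) (hs : Summable fun n => b n * z ^ n) :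
    z ≤ A b z := by
  have := hs.le_tsum 1 (fun n _ => mul_nonneg (H.bn n) (by positivity))
  rw [H.b1] at this
  simpa [A] using this

theorem B_le (H : Hyp b β) {z : ℝ} (hz0 : 0 ≤ z) (hs : Summable fun n => b n * z ^ n) :
    2 * A β z ≤ A b z ^ 2 := by
  rw [(H.summ_conv hz0 hs).1]
  unfold A
  rw [← tsum_mul_left]
  apply Summable.tsum_le_tsum _ ((H.summ_β hz0 hs).mul_left 2) (H.summ_conv hz0 hs).2
  intro n
  have := mul_le_mul_of_nonneg_right (H.r6 n) (by positivity : (0 : ℝ) ≤ z ^ n)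
  linarith

theorem B_lt (H : Hyp b β) {z : ℝ} (hz0 : 0 < z) (hs : Summable fun n => b n * z ^ n) :
    2 * A β z < A b z ^ 2 := by
  rw [(H.summ_conv hz0.le hs).1]
  unfold A
  rw [← tsum_mul_left]
  apply Summable.tsum_lt_tsum (i := 4) _ _ ((H.summ_β hz0.le hs).mul_left 2)
    (H.summ_conv hz0.le hs).2
  · intro n
    have := mul_le_mul_of_nonneg_right (H.r6 n) (by positivity : (0 : ℝ) ≤ z ^ n)
    linarith
  · have := mul_lt_mul_of_pos_right H.r6s (by positivity : (0 : ℝ) < z ^ 4)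
    linarith

/-- the differential equation -/
theorem A1_eq (H : Hyp b β) {z : ℝ} (hz0 : 0 ≤ z) (hs : Summable fun n => b n * z ^ n) :
    A1 b z = 1 + A b z + A b z ^ 2 - A β z := by
  have h0 : HasSum (fun n : ℕ => (if n = 0 then (1 : ℝ) else 0) * z ^ n) 1 := by
    have := hasSum_ite_eq (0 : ℕ) (1 : ℝ)
    convert this using 1
    funext n
    by_cases hn : n = 0
    · subst hn; simp
    · simp [hn]
  have h1 : HasSum (fun n => b n * z ^ n) (A b z) := hs.hasSum
  have h2 := (H.summ_conv hz0 hs).2.hasSum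
  rw [← (H.summ_conv hz0 hs).1] at h2
  have h3 : HasSum (fun n => β n * z ^ n) (A β z) := (H.summ_β hz0 hs).hasSum
  have h := ((h0.add h1).add h2).sub h3
  unfold A1
  rw [← h.tsum_eq]
  apply tsum_congr
  intro n
  rw [H.r1 n]
  ring

theorem B1_le (H : Hyp b β) {z : ℝ} (hz0 : 0 ≤ z) (hs : Summable fun n => b n * z ^ n)
    (hs1 : Summable fun n : ℕ => ((n : ℝ) + 1) * β (n + 1) * z ^ n) :
    A1 β z ≤ A b z + A b z ^ 2 + A b z * A β z := by
  have h1 := hs.hasSum
  have h2 := (H.summ_conv hz0 hs).2.hasSum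
  rw [← (H.summ_conv hz0 hs).1] at h2
  have h3 := ps_mul β b z (norm_summ β H.βn hz0 (H.summ_β hz0 hs)) (norm_summ b H.bn hz0 hs)
  have h4 := h3.2.hasSum
  rw [← h3.1] at h4
  have h := (h1.add h2).add h4
  have e : A b z + A b z ^ 2 + A b z * A β z =
      (∑' n, b n * z ^ n) + A b z ^ 2 + (∑' n, β n * z ^ n) * ∑' n, b n * z ^ n := by
    unfold A; ring
  rw [e, ← h.tsum_eq]
  unfold A1
  apply Summable.tsum_le_tsum _ hs1 h.summable
  intro n
  have := mul_le_mul_of_nonneg_right (H.r2 n) (by positivity : (0 : ℝ) ≤ z ^ n)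
  nlinarith

/-- derivative of `A b` -/
theorem A_deriv (H : Hyp b β) {r z : ℝ} (hr : Summable fun n => b n * r ^ n) (hz0 : 0 ≤ z)
    (hz : z < r) : HasDerivAt (A b) (A1 b z) z :=
  (ps_deriv b H.bn r (hz0.trans_lt hz) hr z (by rwa [abs_of_nonneg hz0])).1

theorem B_deriv (H : Hyp b β) {r z : ℝ} (hr : Summable fun n => b n * r ^ n) (hz0 : 0 ≤ z)
    (hz : z < r) : HasDerivAt (A β) (A1 β z) z ∧
      Summable fun n : ℕ => ((n : ℝ) + 1) * β (n + 1) * z ^ n :=
  ps_deriv β H.βn r (hz0.trans_lt hz) (H.summ_β (hz0.trans hz.le) hr) z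
    (by rwa [abs_of_nonneg hz0])

/-- the radius of convergence is at most `π/2` -/
theorem le_pi (H : Hyp b β) {r : ℝ} (hr : Summable fun n => b n * r ^ n) :
    r ≤ Real.pi / 2 := by
  by_contra hcon
  push Not at hcon
  obtain ⟨z, hz1, hz2⟩ := exists_between hcon
  have hz0 : 0 < z := by linarith [Real.pi_pos]
  have hmono : MonotoneOn (fun x => 2 * Real.arctan (1 + A b x) - x) (Set.Icc 0 z) := by
    have hd : ∀ x ∈ Set.Icc 0 z, HasDerivAt (fun x => 2 * Real.arctan (1 + A b x) - x)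
        (2 * (1 / (1 + (1 + A b x) ^ 2) * A1 b x) - 1) x := by
      intro x hx
      have h1 := H.A_deriv hr hx.1 (hx.2.trans_lt hz2)
      exact (((h1.const_add 1).arctan).const_mul 2).sub (hasDerivAt_id x)
    apply monotoneOn_of_deriv_nonneg (convex_Icc _ _)
    · intro x hx
      exact (hd x hx).continuousAt.continuousWithinAt
    · intro x hx
      rw [interior_Icc] at hx
      exact (hd x ⟨hx.1.le, hx.2.le⟩).differentiableAt.differentiableWithinAt
    · intro x hx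
      rw [interior_Icc] at hx
      rw [(hd x ⟨hx.1.le, hx.2.le⟩).deriv]
      have hsx := summ_mono b H.bn hr hx.1.le (hx.2.trans hz2).le
      have h1 := H.A1_eq hx.1.le hsx
      have h2 := H.B_le hx.1.le hsx
      have h3 : 1 + (1 + A b x) ^ 2 ≤ 2 * A1 b x := by nlinarith
      have h4 : 0 < 1 + (1 + A b x) ^ 2 := by positivity
      have h5 : 2 * (1 / (1 + (1 + A b x) ^ 2) * A1 b x) - 1 =
          (2 * A1 b x - (1 + (1 + A b x) ^ 2)) / (1 + (1 + A b x) ^ 2) := by
        field_simp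
      rw [h5]
      apply div_nonneg _ h4.le
      linarith
  have h := hmono (Set.left_mem_Icc.2 hz0.le) (Set.right_mem_Icc.2 hz0.le) hz0.le
  simp only at h
  have hA0 : A b 0 = 0 := by
    unfold A
    have : (fun n => b n * (0 : ℝ) ^ n) = fun _ => 0 := by
      funext n
      cases n with
      | zero => simp [H.b0]
      | succ n => simp
    rw [this]; simp
  rw [hA0] at h
  have h2 := Real.arctan_lt_pi_div_two (1 + A b z)
  simp at h
  linarith

end Hyp

end Pool.Agent.Helper949.StackSort
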