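import Mathlib
import Pool.Agent.Helper949.Srt.Ana
set_option autoImplicit false
namespace Pool.Agent.Helper949.StackSort

open Finset Filter Topology

namespace Hyp

variable {b β : ℕ → ℝ}

/-- finite sums -/
noncomputable def s (b : ℕ → ℝ) (N : ℕ) (z : ℝ) : ℝ := ∑ n ∈ range (N + 1), b n * z ^ n

theorem s_le_A (H : Hyp b β) {z : ℝ} (hz0 : 0 ≤ z) (hs : Summable fun n => b n * z ^ n) (N : ℕ) :
    s b N z ≤ A b z :=
  hs.sum_le_tsum _ (fun n _ => mul_nonneg (H.bn n) (by positivity))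

theorem s_nonneg (H : Hyp b β) {z : ℝ} (hz0 : 0 ≤ z) (N : ℕ) : 0 ≤ s b N z :=
  sum_nonneg fun n _ => mul_nonneg (H.bn n) (by positivity)

theorem s_conv (H : Hyp b β) {z : ℝ} (hz0 : 0 ≤ z) (N : ℕ) :
    ∑ n ∈ range N, (∑ k ∈ range (n + 1), b k * b (n - k)) * z ^ n ≤ s b N z ^ 2 := by
  set c : ℕ → ℝ := fun n => if n ≤ N then b n else 0 with hc
  have hcn : ∀ n, 0 ≤ c n := by
    intro n
    rw [hc]; simp only
    split_ifs
    · exact H.bn n
    · exact le_rfl
  have hfin : ∀ n, n ∉ range (N + 1) → c n * z ^ n = 0 := by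
    intro n hn
    have : ¬ n ≤ N := by rw [mem_range] at hn; omega
    rw [hc]; simp [this]
  have hs : Summable fun n => c n * z ^ n := summable_of_ne_finset_zero hfin
  have hsum : ∑' n, c n * z ^ n = s b N z := by
    rw [tsum_eq_sum hfin]
    apply sum_congr rfl
    intro n hn
    have : n ≤ N := by rw [mem_range] at hn; omega
    rw [hc]; simp [this]
  have h := ps_mul c c z (norm_summ c hcn hz0 hs) (norm_summ c hcn hz0 hs)
  rw [hsum, ← sq] at h
  rw [h.1]
  have h2 : ∑ n ∈ range N, (∑ k ∈ range (n + 1), b k * b (n - k)) * z ^ n =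
      ∑ n ∈ range N, (∑ k ∈ range (n + 1), c k * c (n - k)) * z ^ n := by
    apply sum_congr rfl
    intro n hn
    congr 1
    apply sum_congr rfl
    intro k hk
    rw [mem_range] at hn hk
    have h1 : k ≤ N := by omega
    have h2 : n - k ≤ N := by omega
    rw [hc]; simp [h1, h2]
  rw [h2]
  apply h.2.sum_le_tsum
  intro n _
  exact mul_nonneg (sum_nonneg fun k _ => mul_nonneg (hcn _) (hcn _)) (by positivity)

theorem s_deriv (H : Hyp b β) (N : ℕ) (z : ℝ) :
    HasDerivAt (s b N) (∑ n ∈ range N, ((n : ℝ) + 1) * b (n + 1) * z ^ n) z := by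
  have h : HasDerivAt (fun z => ∑ n ∈ range (N + 1), b n * z ^ n)
      (∑ n ∈ range (N + 1), b n * ((n : ℝ) * z ^ (n - 1))) z := by
    apply HasDerivAt.fun_sum
    intro n _
    exact (hasDerivAt_pow n z).const_mul _
  have e : ∑ n ∈ range (N + 1), b n * ((n : ℝ) * z ^ (n - 1)) =
      ∑ n ∈ range N, ((n : ℝ) + 1) * b (n + 1) * z ^ n := by
    rw [sum_range_succ']
    simp only [Nat.cast_zero, zero_mul, mul_zero, add_zero]
    apply sum_congr rfl
    intro n _
    rw [Nat.add_sub_cancel]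
    push_cast
    ring
  rw [← e]
  exact h

theorem s_deriv_le (H : Hyp b β) (N : ℕ) {z : ℝ} (hz0 : 0 ≤ z) :
    ∑ n ∈ range N, ((n : ℝ) + 1) * b (n + 1) * z ^ n ≤ (1 + s b N z) ^ 2 := by
  have h1 : ∑ n ∈ range N, ((n : ℝ) + 1) * b (n + 1) * z ^ n ≤
      ∑ n ∈ range N, ((if n = 0 then (1 : ℝ) else 0) + b n * z ^ n +
        (∑ k ∈ range (n + 1), b k * b (n - k)) * z ^ n) := by
    apply sum_le_sum
    intro n _
    rw [H.r1 n]
    have h2 : (0 : ℝ) ≤ β n * z ^ n := mul_nonneg (H.βn n) (by positivity)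
    have h3 : (if n = 0 then (1 : ℝ) else 0) * z ^ n = if n = 0 then (1 : ℝ) else 0 := by
      by_cases hn : n = 0
      · subst hn; simp
      · simp [hn]
    calc ((if n = 0 then (1 : ℝ) else 0) + b n + ∑ k ∈ range (n + 1), b k * b (n - k) - β n) * z ^ n
        = (if n = 0 then (1 : ℝ) else 0) * z ^ n + b n * z ^ n +
          (∑ k ∈ range (n + 1), b k * b (n - k)) * z ^ n - β n * z ^ n := by ring
      _ ≤ _ := by rw [h3]; linarith
  refine h1.trans ?_
  rw [sum_add_distrib, sum_add_distrib]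
  have h4 : ∑ n ∈ range N, (if n = 0 then (1 : ℝ) else 0) ≤ 1 := by
    rw [sum_ite_eq' (range N) 0 (fun _ => (1 : ℝ))]
    split_ifs <;> norm_num
  have h5 : ∑ n ∈ range N, b n * z ^ n ≤ s b N z := by
    unfold s
    apply sum_le_sum_of_subset_of_nonneg
    · intro n hn; rw [mem_range] at hn ⊢; omega
    · intro n _ _; exact mul_nonneg (H.bn n) (by positivity)
  have h6 := H.s_conv hz0 N
  have h7 := H.s_nonneg hz0 N
  nlinarith

/-- comparison with the Riccati equation -/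
theorem s_riccati (H : Hyp b β) (N : ℕ) {x y : ℝ} (hx : 0 ≤ x) (hxy : x ≤ y) :
    1 / (1 + s b N x) + x ≤ 1 / (1 + s b N y) + y := by
  have hmono : MonotoneOn (fun z => 1 / (1 + s b N z) + z) (Set.Icc 0 y) := by
    have hd : ∀ z ∈ Set.Icc 0 y, HasDerivAt (fun z => 1 / (1 + s b N z) + z)
        (-(∑ n ∈ range N, ((n : ℝ) + 1) * b (n + 1) * z ^ n) / (1 + s b N z) ^ 2 + 1) z := by
      intro z hz
      have h1 := (H.s_deriv N z).const_add 1
      have h2 : 1 + s b N z ≠ 0 := by have := H.s_nonneg hz.1 N; positivity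
      have h3 := (h1.inv h2).add (hasDerivAt_id z)
      refine h3.congr_of_eventuallyEq (Filter.Eventually.of_forall fun t => ?_)
      simp [one_div]
    apply monotoneOn_of_deriv_nonneg (convex_Icc _ _)
    · intro z hz
      exact (hd z hz).continuousAt.continuousWithinAt
    · intro z hz
      rw [interior_Icc] at hz
      exact (hd z ⟨hz.1.le, hz.2.le⟩).differentiableAt.differentiableWithinAt
    · intro z hz
      rw [interior_Icc] at hz
      rw [(hd z ⟨hz.1.le, hz.2.le⟩).deriv]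
      have h1 := H.s_deriv_le N hz.1.le
      have h2 := H.s_nonneg hz.1.le N
      have h3 : (0 : ℝ) < (1 + s b N z) ^ 2 := by positivity
      have h4 : (∑ n ∈ range N, ((n : ℝ) + 1) * b (n + 1) * z ^ n) / (1 + s b N z) ^ 2 ≤ 1 := by
        rw [div_le_one h3]; exact h1
      rw [neg_div]
      linarith
  exact hmono ⟨hx, hxy⟩ ⟨hx.trans hxy, le_rfl⟩ hxy

/-- the radius of convergence -/
noncomputable def rad (b : ℕ → ℝ) : ℝ := sSup {z : ℝ | 0 ≤ z ∧ Summable fun n => b n * z ^ n}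

theorem bdd (H : Hyp b β) : BddAbove {z : ℝ | 0 ≤ z ∧ Summable fun n => b n * z ^ n} :=
  ⟨Real.pi / 2, fun _ hz => H.le_pi hz.2⟩

theorem half_mem (H : Hyp b β) :
    (1 / 2 : ℝ) ∈ {z : ℝ | 0 ≤ z ∧ Summable fun n => b n * z ^ n} := by
  refine ⟨by norm_num, ?_⟩
  apply Summable.of_nonneg_of_le (fun n => mul_nonneg (H.bn n) (by positivity)) (fun n => ?_)
    (summable_geometric_of_lt_one (by norm_num) (by norm_num : (1 / 2 : ℝ) < 1))
  have := H.b_le_one n
  have h2 : (0 : ℝ) ≤ (1 / 2) ^ n := by positivity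
  nlinarith

theorem rad_pos (H : Hyp b β) : 0 < rad b :=
  lt_of_lt_of_le (by norm_num : (0 : ℝ) < 1 / 2) (le_csSup H.bdd H.half_mem)

theorem rad_le (H : Hyp b β) : rad b ≤ Real.pi / 2 :=
  csSup_le ⟨_, H.half_mem⟩ fun _ hz => H.le_pi hz.2

theorem exists_summ (H : Hyp b β) {z : ℝ} (hz : z < rad b) :
    ∃ r, z < r ∧ 0 ≤ r ∧ Summable fun n => b n * r ^ n := by
  obtain ⟨r, hr, hzr⟩ := exists_lt_of_lt_csSup ⟨_, H.half_mem⟩ hz
  exact ⟨r, hzr, hr.1, hr.2⟩

theorem summ (H : Hyp b β) {z : ℝ} (hz0 : 0 ≤ z) (hz : z < rad b) :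
    Summable fun n => b n * z ^ n := by
  obtain ⟨r, h1, -, h3⟩ := H.exists_summ hz
  exact summ_mono b H.bn h3 hz0 h1.le

theorem A_mono (H : Hyp b β) {x y : ℝ} (hx : 0 ≤ x) (hxy : x ≤ y) (hy : y < rad b) :
    A b x ≤ A b y :=
  Summable.tsum_le_tsum (fun n => mul_le_mul_of_nonneg_left (pow_le_pow_left₀ hx hxy n) (H.bn n))
    (H.summ hx (hxy.trans_lt hy)) (H.summ (hx.trans hxy) hy)

theorem unbounded (H : Hyp b β) (M : ℝ) : ∃ z, 0 ≤ z ∧ z < rad b ∧ M < A b z := by
  by_contra hcon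
  push Not at hcon
  set ρ := rad b with hρ
  have hρ0 := H.rad_pos
  have hM0 : 0 ≤ M := (H.A_nonneg le_rfl).trans (hcon 0 le_rfl hρ0)
  have h1 : ∀ N, s b N ρ ≤ M := by
    intro N
    have hcont : ContinuousWithinAt (s b N) (Set.Iio ρ) ρ :=
      (H.s_deriv N ρ).continuousAt.continuousWithinAt
    have hne : (𝓝[<] ρ).NeBot := inferInstance
    apply le_of_tendsto hcont
    have h2 : ∀ᶠ z in 𝓝[<] ρ, 0 ≤ z := by
      have : Set.Ioi (0 : ℝ) ∈ 𝓝 ρ := Ioi_mem_nhds hρ0
      filter_upwards [mem_nhdsWithin_of_mem_nhds this] with z hz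
      exact le_of_lt hz
    filter_upwards [h2, self_mem_nhdsWithin] with z hz0 hz
    exact (H.s_le_A hz0 (H.summ hz0 hz) N).trans (hcon z hz0 hz)
  set h := 1 / (2 * (1 + M)) with hh
  have hh0 : 0 < h := by positivity
  have h2 : ∀ N, s b N (ρ + h) ≤ 2 * (1 + M) := by
    intro N
    have h3 := H.s_riccati N hρ0.le (by linarith : ρ ≤ ρ + h)
    have h4 : 1 / (1 + M) ≤ 1 / (1 + s b N ρ) := by
      apply one_div_le_one_div_of_le
      · have := H.s_nonneg hρ0.le N; positivity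
      · have := h1 N; linarith
    have h5 : 1 / (1 + M) = 2 * h := by rw [hh]; field_simp
    have h6 : h ≤ 1 / (1 + s b N (ρ + h)) := by linarith
    have h7 := H.s_nonneg (by linarith : 0 ≤ ρ + h) N
    rw [le_div_iff₀ (by positivity), hh] at h6
    have h8 : 1 + s b N (ρ + h) ≤ 2 * (1 + M) := by
      have h9 : 1 / (2 * (1 + M)) * (1 + s b N (ρ + h)) = (1 + s b N (ρ + h)) / (2 * (1 + M)) := by
        ring
      rw [← hh] at h9
      rw [← hh, h9, div_le_one (by positivity)] at h6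
      exact h6
    linarith
  have h3 : Summable fun n => b n * (ρ + h) ^ n := by
    apply summable_of_sum_range_le (c := 2 * (1 + M))
    · intro n; exact mul_nonneg (H.bn n) (by positivity)
    · intro n
      cases n with
      | zero => simp; positivity
      | succ n => exact h2 n
  have h4 : ρ + h ≤ ρ := le_csSup H.bdd ⟨by positivity, h3⟩
  linarith

theorem A_atTop (H : Hyp b β) : Tendsto (A b) (𝓝[<] (rad b)) atTop := by
  rw [tendsto_atTop]
  intro M
  obtain ⟨z0, h0, h1, h2⟩ := H.unbounded M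
  have : Set.Ioi z0 ∈ 𝓝 (rad b) := Ioi_mem_nhds h1
  filter_upwards [mem_nhdsWithin_of_mem_nhds this, self_mem_nhdsWithin] with z hz hz'
  exact h2.le.trans (H.A_mono h0 (le_of_lt hz) hz')

end Hyp

end Pool.Agent.Helper949.StackSort
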