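import Mathlib
import Pool.Agent.Helper949.Srt.Count
set_option autoImplicit false
namespace Pool.Agent.Helper949.StackSort

open Finset
open scoped Classical

theorem map_injOn {f : ℕ → ℕ} {s : Set ℕ} (hf : Set.InjOn f s) : ∀ {v w : List ℕ},
    (∀ a ∈ v, a ∈ s) → (∀ a ∈ w, a ∈ s) → v.map f = w.map f → v = w := by
  intro v
  induction v with
  | nil => intro w _ _ h; simpa using h.symm
  | cons a t ih =>
    intro w hv hw h
    cases w with
    | nil => simp at h
    | cons b u =>
      simp only [List.map_cons, List.cons.injEq] at h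
      have h1 := hf (hv a (by simp)) (hw b (by simp)) h.1
      have h2 := ih (fun c hc => hv c (by simp [hc])) (fun c hc => hw c (by simp [hc])) h.2
      rw [h1, h2]

theorem cnt_le_of_map {A A' : Finset ℕ} {f : ℕ → ℕ} (hf : StrictMonoOn f (A : Set ℕ))
    (him : A.image f = A') : cnt A ≤ cnt A' := by
  unfold cnt
  have hmem : ∀ w ∈ W A, ∀ a ∈ w, a ∈ (A : Set ℕ) := by
    intro w hw a ha
    rw [← (mem_W.1 hw).2]
    exact List.mem_toFinset.2 ha
  apply card_le_card_of_injOn (fun w => w.map f)
  · intro w hw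
    have hw' : w ∈ (W A).filter S := hw
    rw [mem_filter] at hw'
    show w.map f ∈ (W A').filter S
    rw [mem_filter, mem_W]
    refine ⟨⟨?_, ?_⟩, ?_, ?_⟩
    · exact List.Nodup.map_on
        (fun a ha b hb h => hf.injOn (hmem w hw'.1 a ha) (hmem w hw'.1 b hb) h) (mem_W.1 hw'.1).1
    · rw [← him, ← (mem_W.1 hw'.1).2]
      ext a; simp
    · simpa using hw'.2.1
    · exact hw'.2.2.map hf (hmem w hw'.1)
  · intro v hv w hw h
    have hv' : v ∈ (W A).filter S := hv
    have hw' : w ∈ (W A).filter S := hw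
    exact map_injOn hf.injOn (hmem v (mem_filter.1 hv').1) (hmem w (mem_filter.1 hw').1) h

/-- number of nonempty sorted words with `n` letters -/
noncomputable def aN (n : ℕ) : ℕ := cnt (range n)

theorem cnt_eq (A : Finset ℕ) : cnt A = aN A.card := by
  apply le_antisymm
  · -- rank map
    have hmono : StrictMonoOn (fun a => (A.filter (fun x => x < a)).card) (A : Set ℕ) := by
      intro a ha b _ hab
      apply card_lt_card
      rw [ssubset_iff_subset_ne]
      refine ⟨?_, ?_⟩
      · intro x hx
        rw [mem_filter] at hx ⊢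
        exact ⟨hx.1, hx.2.trans hab⟩
      · intro h
        have : a ∈ A.filter (fun x => x < b) := mem_filter.2 ⟨ha, hab⟩
        rw [← h, mem_filter] at this
        exact lt_irrefl _ this.2
    refine cnt_le_of_map hmono ?_
    apply eq_of_subset_of_card_le
    · intro i hi
      rw [mem_image] at hi
      obtain ⟨a, ha, rfl⟩ := hi
      rw [mem_range]
      apply card_lt_card
      rw [ssubset_iff_subset_ne]
      refine ⟨filter_subset _ _, ?_⟩
      intro h
      rw [← h, mem_filter] at ha
      exact lt_irrefl _ ha.2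
    · rw [card_range, card_image_of_injOn hmono.injOn]
  · -- inverse of the rank map
    set g : ℕ → ℕ := fun i => if h : i < A.card then A.orderEmbOfFin rfl ⟨i, h⟩ else 0 with hg
    have hmono : StrictMonoOn g ((range A.card : Finset ℕ) : Set ℕ) := by
      intro i hi j hj hij
      have hi' : i < A.card := by simpa using hi
      have hj' : j < A.card := by simpa using hj
      rw [hg]
      simp only [hi', hj', dif_pos]
      exact (A.orderEmbOfFin rfl).strictMono hij
    refine cnt_le_of_map hmono ?_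
    apply eq_of_subset_of_card_le
    · intro a ha
      rw [mem_image] at ha
      obtain ⟨i, hi, rfl⟩ := ha
      have hi' : i < A.card := by simpa using hi
      rw [hg]
      simp only [hi', dif_pos]
      exact orderEmbOfFin_mem A rfl _
    · rw [card_image_of_injOn hmono.injOn, card_range]

theorem Pr_card (A : Finset ℕ) :
    Pr A = ∑ k ∈ range (A.card + 1), A.card.choose k * (aN k * aN (A.card - k)) := by
  rw [Pr_eq]
  have h : ∀ X ∈ A.powerset, cnt X * cnt (A \ X) =
      (fun k => aN k * aN (A.card - k)) X.card := by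
    intro X hX
    rw [mem_powerset] at hX
    simp only
    rw [cnt_eq X, cnt_eq (A \ X), card_sdiff_of_subset hX]
  rw [sum_congr rfl h]
  have e := sum_powerset_apply_card (x := A) (fun k => aN k * aN (A.card - k))
  simp only [smul_eq_mul] at e
  exact e

/-- number of pairs of sorted words with sorted concatenation -/
noncomputable def btN (n : ℕ) : ℕ := Bt (range n)

theorem exists_gt (A : Finset ℕ) : ∃ m, ∀ a ∈ A, a < m :=
  ⟨A.sup id + 1, fun _ ha => Nat.lt_succ_of_le (le_sup (f := id) ha)⟩

theorem Bt_eq (A : Finset ℕ) : Bt A = btN A.card := by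
  obtain ⟨m, hm⟩ := exists_gt A
  have h1 := R1 hm
  have h2 := R1 (A := range A.card) (m := A.card) (by simp)
  rw [cnt_eq (insert m A), card_insert_of_notMem (fun h => lt_irrefl _ (hm m h)), Pr_card,
    cnt_eq A] at h1
  rw [cnt_eq (insert A.card (range A.card)), card_insert_of_notMem (by simp), Pr_card,
    cnt_eq (range A.card), card_range] at h2
  have h3 : (A = ∅) ↔ (range A.card = ∅) := by
    rw [← card_eq_zero, ← card_eq_zero (s := range A.card), card_range]
  simp only [h3] at h1
  unfold btN
  omega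

theorem N1 (n : ℕ) : aN (n + 1) + btN n = (if n = 0 then 1 else 0) + aN n +
    ∑ k ∈ range (n + 1), n.choose k * (aN k * aN (n - k)) := by
  have h := R1 (A := range n) (m := n) (by simp)
  rw [Pr_card, card_range, ← range_add_one] at h
  have h3 : (range n = ∅) ↔ n = 0 := by simp
  simp only [h3] at h
  exact h

theorem N2 (n : ℕ) : btN (n + 1) ≤ aN n +
    ∑ k ∈ range (n + 1), n.choose k * (aN k * aN (n - k)) +
    ∑ k ∈ range (n + 1), n.choose k * (btN k * aN (n - k)) := by
  have h := R2 (A := range n) (m := n) (by simp)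
  rw [Pr_card, card_range, ← range_add_one] at h
  have h4 : ∀ X ∈ (range n).powerset, Bt X * cnt (range n \ X) =
      (fun k => btN k * aN (n - k)) X.card := by
    intro X hX
    rw [mem_powerset] at hX
    simp only
    rw [Bt_eq X, cnt_eq (range n \ X), card_sdiff_of_subset hX, card_range]
  have e := sum_powerset_apply_card (x := range n) (fun k => btN k * aN (n - k))
  simp only [smul_eq_mul, card_range] at e
  rw [sum_congr rfl h4, e] at h
  exact h

theorem N3 (n : ℕ) (hn : 1 ≤ n) : aN (n + 1) ≤ (n + 1) * aN n := by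
  have h := R3 (A := range (n + 1)) (by simp; omega)
  have h4 : ∀ f ∈ range (n + 1), cnt ((range (n + 1)).erase f) = aN n := by
    intro f hf
    rw [cnt_eq, card_erase_of_mem hf, card_range]; rfl
  rw [sum_congr rfl h4, sum_const, card_range, smul_eq_mul] at h
  exact h

theorem N6 (n : ℕ) : 2 * btN n ≤ ∑ k ∈ range (n + 1), n.choose k * (aN k * aN (n - k)) := by
  have h := R6 (range n)
  rw [Pr_card, card_range] at h
  exact h

theorem N6s : 2 * btN 4 < ∑ k ∈ range (4 + 1), Nat.choose 4 k * (aN k * aN (4 - k)) := by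
  have h := R6s
  rw [Pr_card, card_range] at h
  exact h

theorem aN_zero : aN 0 = 0 := by
  unfold aN cnt
  rw [card_eq_zero, filter_eq_empty_iff]
  intro w hw
  have : w = [] := by simpa using (mem_W.1 hw).2
  subst this
  exact fun h => h.1 rfl

theorem btN_zero : btN 0 = 0 := by
  have := N6 0
  simp [aN_zero] at this
  exact this

theorem aN_one : aN 1 = 1 := by
  have := N1 0
  simp [aN_zero, btN_zero] at this
  exact this

/-- `a_n / n!` -/
noncomputable def b (n : ℕ) : ℝ := (aN n : ℝ) / n.factorial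

noncomputable def β (n : ℕ) : ℝ := (btN n : ℝ) / n.factorial

theorem conv_real (f g : ℕ → ℕ) (n : ℕ) :
    ((∑ k ∈ range (n + 1), n.choose k * (f k * g (n - k)) : ℕ) : ℝ) / n.factorial =
      ∑ k ∈ range (n + 1), ((f k : ℝ) / k.factorial) * ((g (n - k) : ℝ) / (n - k).factorial) := by
  rw [Nat.cast_sum, sum_div]
  apply sum_congr rfl
  intro k hk
  have hk' : k ≤ n := by simpa [Nat.lt_succ_iff] using hk
  have h := Nat.choose_mul_factorial_mul_factorial hk'
  have h' : (n.factorial : ℝ) = (n.choose k : ℝ) * k.factorial * (n - k).factorial := by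
    exact_mod_cast h.symm
  have h1 : (k.factorial : ℝ) ≠ 0 := by exact_mod_cast k.factorial_ne_zero
  have h2 : ((n - k).factorial : ℝ) ≠ 0 := by exact_mod_cast (n - k).factorial_ne_zero
  have h3 : (n.choose k : ℝ) ≠ 0 := by exact_mod_cast (Nat.choose_pos hk').ne'
  rw [h']
  push_cast
  field_simp

theorem fact_succ (n x : ℕ) : ((n : ℝ) + 1) * ((x : ℝ) / (n + 1).factorial) =
    (x : ℝ) / n.factorial := by
  have h1 : (n.factorial : ℝ) ≠ 0 := by exact_mod_cast n.factorial_ne_zero
  rw [Nat.factorial_succ]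
  push_cast
  field_simp

theorem b_nonneg (n : ℕ) : 0 ≤ b n := by unfold b; positivity
theorem β_nonneg (n : ℕ) : 0 ≤ β n := by unfold β; positivity
theorem b_zero : b 0 = 0 := by simp [b, aN_zero]
theorem b_one : b 1 = 1 := by simp [b, aN_one]

theorem b_rec (n : ℕ) : ((n : ℝ) + 1) * b (n + 1) = (if n = 0 then 1 else 0) + b n +
    ∑ k ∈ range (n + 1), b k * b (n - k) - β n := by
  have h := N1 n
  have h' : ((aN (n + 1) : ℝ) + btN n) = (if n = 0 then 1 else 0) + aN n +
      ((∑ k ∈ range (n + 1), n.choose k * (aN k * aN (n - k)) : ℕ) : ℝ) := by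
    have := congrArg (Nat.cast : ℕ → ℝ) h
    push_cast at this ⊢
    exact this
  have h1 : (n.factorial : ℝ) ≠ 0 := by exact_mod_cast n.factorial_ne_zero
  unfold b β
  rw [fact_succ, ← conv_real]
  have h2 : (aN (n + 1) : ℝ) / n.factorial = ((aN (n + 1) : ℝ) + btN n) / n.factorial -
      (btN n : ℝ) / n.factorial := by ring
  rw [h2, h']
  by_cases hn : n = 0
  · subst hn; simp
  · simp only [if_neg hn]; ring

theorem β_rec (n : ℕ) : ((n : ℝ) + 1) * β (n + 1) ≤ b n +
    ∑ k ∈ range (n + 1), b k * b (n - k) + ∑ k ∈ range (n + 1), β k * b (n - k) := by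
  have h := N2 n
  have h' : (btN (n + 1) : ℝ) ≤ aN n +
      ((∑ k ∈ range (n + 1), n.choose k * (aN k * aN (n - k)) : ℕ) : ℝ) +
      ((∑ k ∈ range (n + 1), n.choose k * (btN k * aN (n - k)) : ℕ) : ℝ) := by
    exact_mod_cast h
  unfold b β
  rw [fact_succ, ← conv_real, ← conv_real, ← add_div, ← add_div]
  exact div_le_div_of_nonneg_right h' (by positivity)

theorem b_le (n : ℕ) (hn : 1 ≤ n) : b (n + 1) ≤ b n := by
  have h := N3 n hn
  have h' : (aN (n + 1) : ℝ) ≤ (n + 1) * aN n := by exact_mod_cast h
  unfold b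
  have h1 : (0 : ℝ) < n.factorial := by exact_mod_cast n.factorial_pos
  rw [Nat.factorial_succ]
  push_cast
  rw [div_le_div_iff₀ (by positivity) h1]
  nlinarith

theorem β_le (n : ℕ) : 2 * β n ≤ ∑ k ∈ range (n + 1), b k * b (n - k) := by
  have h := N6 n
  have h' : 2 * (btN n : ℝ) ≤
      ((∑ k ∈ range (n + 1), n.choose k * (aN k * aN (n - k)) : ℕ) : ℝ) := by
    exact_mod_cast h
  unfold b β
  rw [← conv_real, ← mul_div_assoc]
  exact div_le_div_of_nonneg_right h' (by positivity)

theorem β_lt : 2 * β 4 < ∑ k ∈ range (4 + 1), b k * b (4 - k) := by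
  have h := N6s
  have h' : 2 * (btN 4 : ℝ) <
      ((∑ k ∈ range (4 + 1), Nat.choose 4 k * (aN k * aN (4 - k)) : ℕ) : ℝ) := by
    exact_mod_cast h
  unfold b β
  rw [← conv_real, ← mul_div_assoc]
  exact div_lt_div_of_pos_right h' (by positivity)

theorem mem_Sn_iff {n : ℕ} {w : List ℕ} : w ∈ Sn n ↔ w ∈ W (Icc 1 n) := by
  have hnd : (List.range' 1 n).Nodup := List.nodup_range' ..
  have hf : (List.range' 1 n).toFinset = Icc 1 n := by
    ext a; simp [List.mem_range'_1]; omega
  rw [mem_W]
  show w.Perm (List.range' 1 n) ↔ _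
  constructor
  · intro h
    exact ⟨h.nodup_iff.2 hnd, by rw [List.toFinset_eq_of_perm _ _ h, hf]⟩
  · rintro ⟨h1, h2⟩
    exact List.perm_of_nodup_nodup_toFinset_eq h1 hnd (h2.trans hf.symm)

/-- the number of sorted permutations -/
theorem ncard_image (n : ℕ) (hn : 1 ≤ n) : (stackSort '' Sn n).ncard = aN n := by
  rw [image_eq]
  have h : {w | w ∈ Sn n ∧ Srt w} = (((W (Icc 1 n)).filter S : Finset (List ℕ)) : Set (List ℕ)) := by
    ext w
    simp only [coe_filter, Set.mem_ofPred_eq, mem_Sn_iff]
    constructor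
    · rintro ⟨h1, h2⟩
      refine ⟨h1, ?_, h2⟩
      rintro rfl
      have : (Icc 1 n).card = 0 := by rw [← (mem_W.1 h1).2]; simp
      simp at this
      omega
    · rintro ⟨h1, h2⟩
      exact ⟨h1, h2.2⟩
  rw [h, Set.ncard_coe_finset]
  have := cnt_eq (Icc 1 n)
  unfold cnt at this
  rw [this]
  simp

end Pool.Agent.Helper949.StackSort
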