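import Mathlib
import Pool.Agent.Helper949.Srt.Rho
import Pool.Agent.Helper949.Srt.Seq
import Pool.Agent.Helper949.Srt.Kar
import Pool.Agent.Helper949.Srt.Phase
import Pool.Agent.Helper949.Srt.Tau
set_option autoImplicit false
namespace Pool.Agent.Helper949.StackSort

open Finset Filter Topology

namespace Hyp

variable {b β : ℕ → ℝ}

theorem limits (H : Hyp b β) :
    Tendsto (fun z => (rad b - z) * A b z) (𝓝[<] (rad b)) (𝓝 1) ∧
      Tendsto (fun z => (rad b - z) ^ 2 * A β z) (𝓝[<] (rad b)) (𝓝 0) := by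
  refine Pool.Agent.Helper949.Srt.phase_plane (rad b) 0 H.rad_pos (A b) (A β) (A1 b) (A1 β)
    ?_ ?_ ?_ ?_ ?_ ?_ ?_ H.A_atTop
  · intro z h0 h1
    obtain ⟨r, h2, -, h4⟩ := H.exists_summ h1
    exact H.A_deriv h4 h0.le h2
  · intro z h0 h1
    obtain ⟨r, h2, -, h4⟩ := H.exists_summ h1
    exact (H.B_deriv h4 h0.le h2).1
  · intro z h0 h1
    exact H.A1_eq h0.le (H.summ h0.le h1)
  · intro z h0 h1
    obtain ⟨r, h2, -, h4⟩ := H.exists_summ h1
    exact H.B1_le h0.le (H.summ h0.le h1) (H.B_deriv h4 h0.le h2).2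
  · intro z h0 h1
    exact h0.trans_le (H.le_A h0.le (H.summ h0.le h1))
  · intro z h0 _
    exact H.B_nonneg h0.le
  · intro z h0 h1
    exact H.B_lt h0 (H.summ h0.le h1)

theorem tendsto_scale {ρ : ℝ} (hρ : 0 < ρ) :
    Tendsto (fun x : ℝ => ρ * x) (𝓝[<] 1) (𝓝[<] ρ) := by
  rw [tendsto_nhdsWithin_iff]
  constructor
  · have h : Tendsto (fun x : ℝ => ρ * x) (𝓝 1) (𝓝 (ρ * 1)) :=
      (continuous_const.mul continuous_id).tendsto 1
    rw [mul_one] at h
    exact h.mono_left nhdsWithin_le_nhds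
  · filter_upwards [self_mem_nhdsWithin] with x hx
    have hx' : x < 1 := hx
    show ρ * x < ρ
    nlinarith

theorem avg (H : Hyp b β) : Tendsto (fun n : ℕ =>
    (∑ k ∈ range (n + 1), b k * rad b ^ (k + 1)) / (n : ℝ)) atTop (𝓝 1) := by
  set ρ := rad b with hρ
  have hρ0 : 0 < ρ := H.rad_pos
  have hfun : ∀ x : ℝ, (fun n => b n * ρ ^ (n + 1) * x ^ n) =
      fun n => ρ * (b n * (ρ * x) ^ n) := by
    intro x; funext n; rw [mul_pow]; ring
  apply Pool.Agent.Helper949.Srt.karamata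
  · intro n; exact mul_nonneg (H.bn n) (by positivity)
  · intro x hx0 hx1
    rw [hfun]
    apply Summable.mul_left
    apply H.summ (by positivity)
    nlinarith
  · have h1 := H.limits.1.comp (tendsto_scale hρ0)
    refine h1.congr fun x => ?_
    simp only [Function.comp]
    rw [hfun, tsum_mul_left]
    unfold A
    ring

theorem beta_avg (H : Hyp b β) (ε : ℝ) (hε : 0 < ε) : ∃ N0 : ℕ, ∀ n : ℕ, N0 ≤ n →
    ∑ k ∈ range (n + 1), β k * rad b ^ (k + 1) ≤ ε * (n : ℝ) ^ 2 := by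
  set ρ := rad b with hρ
  have hρ0 : 0 < ρ := H.rad_pos
  have hx : Tendsto (fun n : ℕ => ρ * (1 - 1 / (2 * (n : ℝ)))) atTop (𝓝[<] ρ) := by
    apply (tendsto_scale hρ0).comp
    rw [tendsto_nhdsWithin_iff]
    constructor
    · have h : Tendsto (fun n : ℕ => 1 - (1 / 2) * (1 / (n : ℝ))) atTop
          (𝓝 (1 - (1 / 2) * 0)) :=
        (tendsto_one_div_atTop_nhds_zero_nat.const_mul _).const_sub 1
      rw [mul_zero, sub_zero] at h
      refine h.congr fun n => ?_
      rw [one_div_mul_one_div]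
    · filter_upwards [eventually_ge_atTop 1] with n hn
      have : (0 : ℝ) < n := by exact_mod_cast hn
      show 1 - 1 / (2 * (n : ℝ)) < 1
      have : 0 < 1 / (2 * (n : ℝ)) := by positivity
      linarith
  have h := H.limits.2.comp hx
  have h2 := (tendsto_order.1 h).2 (ε * ρ / 8) (by positivity)
  obtain ⟨N0, hN0⟩ := eventually_atTop.1 h2
  refine ⟨max N0 1, fun n hn => ?_⟩
  have hn1 : 1 ≤ n := (le_max_right _ _).trans hn
  have hn0 : (0 : ℝ) < n := by exact_mod_cast hn1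
  have h3 := hN0 n ((le_max_left _ _).trans hn)
  simp only [Function.comp] at h3
  set x := 1 - 1 / (2 * (n : ℝ)) with hxdef
  have hx12 : 1 / (2 * (n : ℝ)) ≤ 1 / 2 := by
    apply one_div_le_one_div_of_le (by norm_num)
    have : (1 : ℝ) ≤ n := by exact_mod_cast hn1
    linarith
  have hx0 : 0 < x := by rw [hxdef]; linarith
  have hx1 : x < 1 := by
    have : 0 < 1 / (2 * (n : ℝ)) := by positivity
    rw [hxdef]; linarith
  have hxn : 1 / 2 ≤ x ^ n := by
    have hb := one_add_mul_le_pow (a := -(1 / (2 * (n : ℝ)))) (by linarith) n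
    have e : 1 + (n : ℝ) * -(1 / (2 * (n : ℝ))) = 1 / 2 := by field_simp; ring
    rw [e] at hb
    rw [hxdef, sub_eq_add_neg]
    exact hb
  have e1 : ρ - ρ * x = ρ / (2 * n) := by rw [hxdef]; ring
  rw [e1] at h3
  have hρx0 : 0 ≤ ρ * x := by positivity
  have hρx1 : ρ * x < ρ := by nlinarith
  have hsb := H.summ_β hρx0 (H.summ hρx0 hρx1)
  have h4 : ∑ k ∈ range (n + 1), β k * ρ ^ (k + 1) ≤ 2 * (ρ * A β (ρ * x)) := by
    have h5 : ∑ k ∈ range (n + 1), β k * ρ ^ (k + 1) ≤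
        ∑ k ∈ range (n + 1), 2 * (ρ * (β k * (ρ * x) ^ k)) := by
      apply sum_le_sum
      intro k hk
      have hkn : k ≤ n := by rw [mem_range] at hk; omega
      have h6 : x ^ n ≤ x ^ k := pow_le_pow_of_le_one hx0.le hx1.le hkn
      have h7 : 1 ≤ 2 * x ^ k := by linarith
      have h8 : 0 ≤ β k * ρ ^ (k + 1) := mul_nonneg (H.βn k) (by positivity)
      have h9 : 2 * (ρ * (β k * (ρ * x) ^ k)) = β k * ρ ^ (k + 1) * (2 * x ^ k) := by
        rw [mul_pow]; ring
      rw [h9]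
      nlinarith
    refine h5.trans ?_
    rw [← mul_sum, ← mul_sum]
    apply mul_le_mul_of_nonneg_left _ (by norm_num)
    apply mul_le_mul_of_nonneg_left _ hρ0.le
    exact hsb.sum_le_tsum _ (fun k _ => mul_nonneg (H.βn k) (by positivity))
  have h10 : A β (ρ * x) ≤ ε * ρ / 8 * (2 * n / ρ) ^ 2 := by
    have h11 : A β (ρ * x) = (ρ / (2 * n)) ^ 2 * A β (ρ * x) * (2 * n / ρ) ^ 2 := by
      field_simp
    rw [h11]
    exact mul_le_mul_of_nonneg_right h3.le (by positivity)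
  refine h4.trans ?_
  have h12 : 2 * (ρ * (ε * ρ / 8 * (2 * n / ρ) ^ 2)) = ε * (n : ℝ) ^ 2 := by
    field_simp
    ring
  rw [← h12]
  apply mul_le_mul_of_nonneg_left _ (by norm_num)
  exact mul_le_mul_of_nonneg_left h10 hρ0.le

theorem conv_scale (f g : ℕ → ℝ) (ρ : ℝ) (n : ℕ) :
    ∑ k ∈ range (n + 1), (f k * ρ ^ (k + 1)) * (g (n - k) * ρ ^ (n - k + 1)) =
      (∑ k ∈ range (n + 1), f k * g (n - k)) * ρ ^ (n + 2) := by
  rw [sum_mul]
  apply sum_congr rfl
  intro k hk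
  have hkn : k ≤ n := by rw [mem_range] at hk; omega
  have : ρ ^ (n + 2) = ρ ^ (k + 1) * ρ ^ (n - k + 1) := by
    rw [← pow_add]; congr 1; omega
  rw [this]; ring

/-- main asymptotic statement for the abstract sequences -/
theorem main (H : Hyp b β) : Tendsto (fun n : ℕ => b n * rad b ^ (n + 1)) atTop (𝓝 1) := by
  set ρ := rad b with hρ
  have hρ0 : 0 < ρ := H.rad_pos
  have hρpi : ρ ≤ Real.pi / 2 := H.rad_le
  have hρ16 : ρ ≤ 1.6 := by have := Real.pi_lt_d2; linarith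
  have hdn : ∀ n, 0 ≤ b n * ρ ^ (n + 1) := fun n => mul_nonneg (H.bn n) (by positivity)
  have hβn : ∀ n, 0 ≤ β n * ρ ^ (n + 1) := fun n => mul_nonneg (H.βn n) (by positivity)
  apply Pool.Agent.Helper949.Srt.tauberT _ hdn H.avg
  · intro n hn
    have h1 := H.r3 n hn
    have h2 : b (n + 1) * ρ ^ (n + 1 + 1) ≤ b n * ρ ^ (n + 1) * ρ := by
      rw [pow_succ ρ (n + 1), ← mul_assoc]
      apply mul_le_mul_of_nonneg_right _ hρ0.le
      exact mul_le_mul_of_nonneg_right h1 (by positivity)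
    have h3 := hdn n
    nlinarith
  · intro ε hε
    obtain ⟨N1, hN1⟩ := H.beta_avg (ε / (2 * ρ)) (by positivity)
    obtain ⟨N2, hN2⟩ := eventually_atTop.1 ((tendsto_order.1 H.avg).2 2 (by norm_num))
    obtain ⟨N3, hN3⟩ := exists_nat_ge ((3 * ρ + ρ ^ 2) * (2 / ε))
    refine ⟨max (max N1 N2) (max N3 1), fun n hn w hw => ?_⟩
    have hn1 : 1 ≤ n := (le_max_right _ _).trans ((le_max_right _ _).trans hn)
    have hnN3 : N3 ≤ n := (le_max_left _ _).trans ((le_max_right _ _).trans hn)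
    have hnN1 : N1 ≤ n := (le_max_left _ _).trans ((le_max_left _ _).trans hn)
    have hnN2 : N2 ≤ n := (le_max_right _ _).trans ((le_max_left _ _).trans hn)
    have hn0 : (0 : ℝ) < n := by exact_mod_cast hn1
    have hn1' : (1 : ℝ) ≤ n := by exact_mod_cast hn1
    have hw0 : 0 ≤ w := (hdn 0).trans (hw 0 (Nat.zero_le _))
    -- the error term
    have hr := H.r1 n
    rw [if_neg (by omega : n ≠ 0)] at hr
    have he : ((n : ℝ) + 1) * (b (n + 1) * ρ ^ (n + 1 + 1)) -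
        ∑ k ∈ range (n + 1), b k * ρ ^ (k + 1) * (b (n - k) * ρ ^ (n - k + 1)) =
        ρ * (b n * ρ ^ (n + 1)) - ρ * (β n * ρ ^ (n + 1)) := by
      rw [conv_scale]
      have : ((n : ℝ) + 1) * (b (n + 1) * ρ ^ (n + 1 + 1)) =
          (((n : ℝ) + 1) * b (n + 1)) * ρ ^ (n + 2) := by ring
      rw [this, hr]
      ring
    rw [he]
    -- bound for β
    have hD : ∑ k ∈ range (n + 1), b k * ρ ^ (k + 1) ≤ 2 * n := by
      have := (hN2 n hnN2).le
      rwa [div_le_iff₀ hn0] at this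
    have hB := hN1 n hnN1
    obtain ⟨m, rfl⟩ : ∃ m, n = m + 1 := ⟨n - 1, by omega⟩
    have hr2 := H.r2 m
    have h1 : ((m : ℝ) + 1) * (β (m + 1) * ρ ^ (m + 1 + 1)) ≤ ρ * (b m * ρ ^ (m + 1)) +
        ∑ k ∈ range (m + 1), (b k * ρ ^ (k + 1)) * (b (m - k) * ρ ^ (m - k + 1)) +
        ∑ k ∈ range (m + 1), (β k * ρ ^ (k + 1)) * (b (m - k) * ρ ^ (m - k + 1)) := by
      rw [conv_scale, conv_scale]
      have := mul_le_mul_of_nonneg_right hr2 (by positivity : (0 : ℝ) ≤ ρ ^ (m + 2))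
      calc ((m : ℝ) + 1) * (β (m + 1) * ρ ^ (m + 1 + 1)) =
          ((m : ℝ) + 1) * β (m + 1) * ρ ^ (m + 2) := by ring
        _ ≤ _ := this
        _ = _ := by ring
    have h2 : ∑ k ∈ range (m + 1), (b k * ρ ^ (k + 1)) * (b (m - k) * ρ ^ (m - k + 1)) ≤
        w * (2 * ((m + 1 : ℕ) : ℝ)) := by
      have h3 : ∑ k ∈ range (m + 1), (b k * ρ ^ (k + 1)) * (b (m - k) * ρ ^ (m - k + 1)) ≤
          ∑ k ∈ range (m + 1), w * (b k * ρ ^ (k + 1)) := by
        apply sum_le_sum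
        intro k hk
        have := hw (m - k) (by omega)
        have := hdn k
        nlinarith
      refine h3.trans ?_
      rw [← mul_sum]
      apply mul_le_mul_of_nonneg_left _ hw0
      refine le_trans ?_ hD
      apply sum_le_sum_of_subset_of_nonneg
      · intro k hk; rw [mem_range] at hk ⊢; omega
      · intro k _ _; exact hdn k
    have h3 : ∑ k ∈ range (m + 1), (β k * ρ ^ (k + 1)) * (b (m - k) * ρ ^ (m - k + 1)) ≤
        w * (ε / (2 * ρ) * ((m + 1 : ℕ) : ℝ) ^ 2) := by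
      have h4 : ∑ k ∈ range (m + 1), (β k * ρ ^ (k + 1)) * (b (m - k) * ρ ^ (m - k + 1)) ≤
          ∑ k ∈ range (m + 1), w * (β k * ρ ^ (k + 1)) := by
        apply sum_le_sum
        intro k hk
        have := hw (m - k) (by omega)
        have := hβn k
        nlinarith
      refine h4.trans ?_
      rw [← mul_sum]
      apply mul_le_mul_of_nonneg_left _ hw0
      refine le_trans ?_ hB
      apply sum_le_sum_of_subset_of_nonneg
      · intro k hk; rw [mem_range] at hk ⊢; omega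
      · intro k _ _; exact hβn k
    have hwm := hw m (by omega)
    have hwn := hw (m + 1) le_rfl
    set n' : ℝ := ((m + 1 : ℕ) : ℝ) with hn'
    have hcast : (m : ℝ) + 1 = n' := by rw [hn']; push_cast; ring
    rw [hcast] at h1
    set X := β (m + 1) * ρ ^ (m + 1 + 1) with hX
    have hX0 : 0 ≤ X := hβn (m + 1)
    have h5 : n' * X ≤ w * (ρ + 2 * n' + ε / (2 * ρ) * n' ^ 2) := by
      have : ρ * (b m * ρ ^ (m + 1)) ≤ ρ * w := mul_le_mul_of_nonneg_left hwm hρ0.le
      nlinarith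
    have h6 : (3 * ρ + ρ ^ 2) ≤ ε / 2 * n' := by
      have h7 : ((N3 : ℕ) : ℝ) ≤ n' := by rw [hn']; exact_mod_cast hnN3
      have h8 : (3 * ρ + ρ ^ 2) * (2 / ε) ≤ n' := hN3.trans h7
      have h9 : (3 * ρ + ρ ^ 2) = (3 * ρ + ρ ^ 2) * (2 / ε) * (ε / 2) := by field_simp
      rw [h9, mul_comm (ε / 2) n']
      exact mul_le_mul_of_nonneg_right h8 (by positivity)
    have h10 : ρ * X ≤ w * (ρ ^ 2 + 2 * ρ + ε / 2 * n') := by
      have h11 : n' * (ρ * X) ≤ n' * (w * (ρ ^ 2 + 2 * ρ + ε / 2 * n')) := by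
        have h12 : n' * (ρ * X) ≤ ρ * (w * (ρ + 2 * n' + ε / (2 * ρ) * n' ^ 2)) := by
          have := mul_le_mul_of_nonneg_left h5 hρ0.le
          linarith
        refine h12.trans ?_
        have h13 : ρ * (w * (ρ + 2 * n' + ε / (2 * ρ) * n' ^ 2)) =
            w * (ρ ^ 2 + 2 * ρ * n' + ε / 2 * n' ^ 2) := by
          field_simp
        have h14 : n' * (w * (ρ ^ 2 + 2 * ρ + ε / 2 * n')) =
            w * (ρ ^ 2 * n' + 2 * ρ * n' + ε / 2 * n' ^ 2) := by ring
        rw [h13, h14]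
        apply mul_le_mul_of_nonneg_left _ hw0
        nlinarith [sq_nonneg ρ]
      exact le_of_mul_le_mul_left h11 hn0
    have h15 : w * (ρ ^ 2 + 2 * ρ + ε / 2 * n') + w * ρ ≤ ε * n' * w := by
      have : w * (ρ ^ 2 + 2 * ρ + ε / 2 * n') + w * ρ = w * ((3 * ρ + ρ ^ 2) + ε / 2 * n') := by
        ring
      rw [this]
      have h16 : (3 * ρ + ρ ^ 2) + ε / 2 * n' ≤ ε * n' := by linarith
      have := mul_le_mul_of_nonneg_left h16 hw0
      linarith
    have hY0 := hdn (m + 1)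
    rw [abs_le]
    constructor
    · have : 0 ≤ ρ * (b (m + 1) * ρ ^ (m + 1 + 1)) := mul_nonneg hρ0.le hY0
      have hwρ : 0 ≤ w * ρ := mul_nonneg hw0 hρ0.le
      linarith
    · have h17 : ρ * (b (m + 1) * ρ ^ (m + 1 + 1)) ≤ w * ρ := by
        have := mul_le_mul_of_nonneg_left hwn hρ0.le
        linarith
      have h18 : 0 ≤ ρ * X := mul_nonneg hρ0.le hX0
      have h19 : 0 ≤ w * (ρ ^ 2 + 2 * ρ + ε / 2 * n') := by positivity
      linarith

end Hyp

/-- the sequences `a_n / n!` and its companion satisfy the hypotheses -/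
theorem hyp : Hyp b β where
  b0 := b_zero
  b1 := b_one
  bn := b_nonneg
  βn := β_nonneg
  r1 := b_rec
  r2 := β_rec
  r3 := b_le
  r6 := β_le
  r6s := β_lt

/-- The number of sorted permutations satisfies `a_n ~ n! L^(n+1)`. -/
theorem asymptotics : ∃ L : ℝ, 2 / Real.pi ≤ L ∧ L ≤ 1 ∧
    Tendsto (fun n : ℕ => ((stackSort '' Sn n).ncard : ℝ) / ((n.factorial : ℝ) * L ^ (n + 1)))
      atTop (𝓝 1) := by
  refine ⟨1 / Hyp.rad b, ?_, ?_, ?_⟩
  · rw [div_le_div_iff₀ Real.pi_pos hyp.rad_pos]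
    have := hyp.rad_le
    linarith
  · rw [div_le_one hyp.rad_pos]
    by_contra hcon
    push Not at hcon
    have h := hyp.main
    have h2 : ∀ n : ℕ, b n * Hyp.rad b ^ (n + 1) ≤ Hyp.rad b ^ (n + 1) := by
      intro n
      have := hyp.b_le_one n
      have h3 : 0 ≤ Hyp.rad b ^ (n + 1) := by have := hyp.rad_pos; positivity
      nlinarith
    have h4 : Tendsto (fun n : ℕ => Hyp.rad b ^ (n + 1)) atTop (𝓝 0) :=
      (tendsto_pow_atTop_nhds_zero_of_lt_one hyp.rad_pos.le hcon).comp (tendsto_add_atTop_nat 1)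
    have := le_of_tendsto_of_tendsto' h h4 h2
    norm_num at this
  · refine hyp.main.congr' ?_
    filter_upwards [eventually_ge_atTop 1] with n hn
    rw [ncard_image n hn]
    unfold b
    have := hyp.rad_pos
    have h1 : (n.factorial : ℝ) ≠ 0 := by exact_mod_cast n.factorial_ne_zero
    rw [one_div, inv_pow]
    field_simp

end Pool.Agent.Helper949.StackSort
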